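import Pool.Agent.Q240.SD.Stm

/-!
# Project SD (helper240), job QP (helper214): Weil's form of a pair of packets
-/

set_option autoImplicit false
set_option linter.unusedVariables false

open Filter Topology Finset MeasureTheory
open scoped ComplexConjugate

namespace Q214.SD

open Pool.Agent Pool.Agent.Q240.SD
open Pool.Agent.Y23 (TT Fa N2 QQ Zt mu GG rfZ rfZ_sub mu_rfZ half_re zsummable zsum_le Lg)
open Pool.Agent.Q240.EW (Bump Ps)

lemma neg_conj_div (w : ℂ) (T : ℝ) : (-conj w) / (T : ℂ) = -conj (w / T) := by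
  rw [map_div₀, Complex.conj_ofReal, neg_div]

/-- the transform of the smoothed function -/
lemma gg_eq (h1 : S_Cv) (h2 : S_Psi) {ψ : ℝ → ℝ} (hψ : Bump ψ) {T : ℝ} (hT : 0 < T) {a : ℝ}
    (ha : 0 < a) {g : ℝ → ℂ} (hg : Fa a g) (w : ℂ) :
    GG (Sg ψ T g) (Sg ψ T g) w
      = Ps ψ (w / T) ^ 2 * (TT g w * conj (TT g (-conj w))) := by
  obtain ⟨c1, -, -⟩ := h1 ψ T hψ hT
  obtain ⟨p1, p2, -⟩ := h2 ψ hψ
  rw [GG, c1 a g w ha hg, c1 a g (-conj w) ha hg, neg_conj_div, p1, p2, map_mul,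
    Complex.conj_conj]
  ring

/-- the conjugate of the reflected packet -/
lemma mn_conj (s t b : ℝ) (c w : ℂ) :
    conj (Mn s t b c (-conj w)) = (Real.sqrt (2 * Real.pi * s) : ℂ)
      * Complex.exp (s * (w - t * Complex.I) ^ 2 / 2)
      * (Complex.exp (-(b * (w - t * Complex.I))) + conj c * Complex.exp (b * (w - t * Complex.I))) := by
  unfold Mn
  simp only [map_mul, map_add, map_sub, map_neg, map_pow, map_div₀, Complex.conj_ofReal,
    ← Complex.exp_conj, Complex.conj_conj, Complex.conj_I, map_ofNat]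
  have e : (-w - (t : ℂ) * -Complex.I) = -(w - t * Complex.I) := by ring
  rw [e, neg_sq, mul_neg, neg_neg]

lemma mn_mul {s t b : ℝ} {c : ℂ} (hs : 0 ≤ s) (hc : ‖c‖ = 1) (w : ℂ) :
    Mn s t b c w * conj (Mn s t b c (-conj w)) = (2 * Real.pi * s : ℝ)
      * (Complex.exp (s * (w - t * Complex.I) ^ 2)
        * (2 + conj c * Complex.exp (2 * b * (w - t * Complex.I))
          + c * Complex.exp (-(2 * b * (w - t * Complex.I))))) := by
  rw [mn_conj, Mn]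
  have hq : (Real.sqrt (2 * Real.pi * s) : ℂ) * (Real.sqrt (2 * Real.pi * s) : ℂ)
      = ((2 * Real.pi * s : ℝ) : ℂ) := by
    rw [← Complex.ofReal_mul, Real.mul_self_sqrt (by positivity)]
  have hcc : c * conj c = 1 := by
    rw [Complex.mul_conj, Complex.normSq_eq_norm_sq, hc]
    norm_num
  have e1 : Complex.exp (s * (w - t * Complex.I) ^ 2)
      = Complex.exp (s * (w - t * Complex.I) ^ 2 / 2)
        * Complex.exp (s * (w - t * Complex.I) ^ 2 / 2) := by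
    rw [← Complex.exp_add]
    congr 1
    ring
  have e2 : Complex.exp (2 * b * (w - t * Complex.I))
      = Complex.exp (b * (w - t * Complex.I)) * Complex.exp (b * (w - t * Complex.I)) := by
    rw [← Complex.exp_add]
    congr 1
    ring
  have e3 : Complex.exp (-(2 * b * (w - t * Complex.I)))
      = Complex.exp (-(b * (w - t * Complex.I))) * Complex.exp (-(b * (w - t * Complex.I))) := by
    rw [← Complex.exp_add]
    congr 1
    ring
  have e4 : Complex.exp (b * (w - t * Complex.I)) * Complex.exp (-(b * (w - t * Complex.I)))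
      = 1 := by
    rw [← Complex.exp_add, add_neg_cancel, Complex.exp_zero]
  rw [e1, e2, e3, ← hq]
  generalize Complex.exp (s * (w - t * Complex.I) ^ 2 / 2) = E at *
  generalize Complex.exp (b * (w - t * Complex.I)) = P at *
  generalize Complex.exp (-(b * (w - t * Complex.I))) = M at *
  generalize (Real.sqrt (2 * Real.pi * s) : ℂ) = r at *
  linear_combination (r * r * E * E * (1 + c * conj c)) * e4 + (r * r * E * E) * hcc

lemma mn_norm {a s t b : ℝ} {c : ℂ} (ha : 26 ≤ a) (hs : 2 ≤ s) (hsa : s ≤ a) (hb : 0 ≤ b)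
    (hba : b ≤ a) (hc : ‖c‖ = 1) {w : ℂ} (hw : |w.re| ≤ 1 / 2) :
    ‖Mn s t b c w‖ ≤ Real.exp (2 * a) := by
  have hre : (w - t * Complex.I).re = w.re := by simp
  have hsq : ((w - t * Complex.I) ^ 2).re ≤ 1 / 4 := by
    rw [pow_two, Complex.mul_re, hre]
    have := abs_le.1 hw
    nlinarith [mul_self_nonneg (w - t * Complex.I).im]
  have h1 : ‖Complex.exp (s * (w - t * Complex.I) ^ 2 / 2)‖ ≤ Real.exp (a / 8) := by
    rw [Complex.norm_exp]
    apply Real.exp_le_exp.2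
    have e : ((s : ℂ) * (w - t * Complex.I) ^ 2 / 2).re = s * ((w - t * Complex.I) ^ 2).re / 2 := by
      rw [show ((s : ℂ) * (w - t * Complex.I) ^ 2 / 2)
        = ((s / 2 : ℝ) : ℂ) * (w - t * Complex.I) ^ 2 by push_cast; ring, Complex.re_ofReal_mul]
      ring
    rw [e]
    nlinarith
  have h2 : ‖Complex.exp (b * (w - t * Complex.I))‖ ≤ Real.exp (a / 2) := by
    rw [Complex.norm_exp]
    apply Real.exp_le_exp.2
    rw [Complex.re_ofReal_mul, hre]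
    have := abs_le.1 hw
    nlinarith
  have h3 : ‖Complex.exp (-(b * (w - t * Complex.I)))‖ ≤ Real.exp (a / 2) := by
    rw [Complex.norm_exp]
    apply Real.exp_le_exp.2
    rw [Complex.neg_re, Complex.re_ofReal_mul, hre]
    have := abs_le.1 hw
    nlinarith
  have h4 : ‖Complex.exp (b * (w - t * Complex.I))
      + c * Complex.exp (-(b * (w - t * Complex.I)))‖ ≤ 2 * Real.exp (a / 2) := by
    refine (norm_add_le _ _).trans ?_
    rw [norm_mul, hc]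
    linarith
  have h5 : Real.sqrt (2 * Real.pi * s) * 2 ≤ Real.exp a := by
    have q1 : 8 * Real.pi * s ≤ (Real.exp a) ^ 2 := by
      have := Real.add_one_le_exp a
      have hpi := Real.pi_lt_d2
      have hpi0 := Real.pi_pos
      have : a ^ 2 ≤ (Real.exp a) ^ 2 := by
        apply pow_le_pow_left₀ (by linarith)
        linarith
      nlinarith
    have q2 : Real.sqrt (2 * Real.pi * s) * 2 = Real.sqrt (8 * Real.pi * s) := by
      rw [show 8 * Real.pi * s = (2 * Real.pi * s) * 2 ^ 2 by ring,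
        Real.sqrt_mul (show (0 : ℝ) ≤ 2 * Real.pi * s by positivity), Real.sqrt_sq (by norm_num)]
    rw [q2]
    calc Real.sqrt (8 * Real.pi * s) ≤ Real.sqrt ((Real.exp a) ^ 2) := Real.sqrt_le_sqrt q1
      _ = Real.exp a := Real.sqrt_sq (Real.exp_pos a).le
  rw [Mn, norm_mul, norm_mul, Complex.norm_real, Real.norm_eq_abs, abs_of_nonneg (Real.sqrt_nonneg _)]
  calc Real.sqrt (2 * Real.pi * s) * ‖Complex.exp (s * (w - t * Complex.I) ^ 2 / 2)‖
        * ‖Complex.exp (b * (w - t * Complex.I)) + c * Complex.exp (-(b * (w - t * Complex.I)))‖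
      ≤ Real.sqrt (2 * Real.pi * s) * Real.exp (a / 8) * (2 * Real.exp (a / 2)) := by gcongr
    _ = (Real.sqrt (2 * Real.pi * s) * 2) * (Real.exp (a / 8) * Real.exp (a / 2)) := by ring
    _ ≤ Real.exp a * (Real.exp (a / 8) * Real.exp (a / 2)) := by gcongr
    _ = Real.exp (a + (a / 8 + a / 2)) := by rw [Real.exp_add, Real.exp_add]
    _ ≤ Real.exp (2 * a) := by
        apply Real.exp_le_exp.2
        linarith

/-- the reflection of a term -/
lemma term_refl (h2 : S_Psi) {ψ : ℝ → ℝ} (hψ : Bump ψ) (T s t b : ℝ) (c : ℂ) (ρ : Zt) :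
    ((mu (rfZ ρ : Zt) : ℂ) * (Ps ψ ((((rfZ ρ : Zt) : ℂ) - 1 / 2) / T) ^ 2
      * (Complex.exp (s * ((((rfZ ρ : Zt) : ℂ) - 1 / 2) - t * Complex.I) ^ 2)
        * (conj c * Complex.exp (2 * b * ((((rfZ ρ : Zt) : ℂ) - 1 / 2) - t * Complex.I))))))
    = conj ((mu ρ : ℂ) * (Ps ψ (((ρ : ℂ) - 1 / 2) / T) ^ 2
      * (Complex.exp (s * (((ρ : ℂ) - 1 / 2) - t * Complex.I) ^ 2)
        * (c * Complex.exp (-(2 * b * (((ρ : ℂ) - 1 / 2) - t * Complex.I))))))) := by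
  obtain ⟨p1, p2, -⟩ := h2 ψ hψ
  rw [mu_rfZ, rfZ_sub, neg_conj_div, p1, p2]
  simp only [map_mul, map_add, map_sub, map_neg, map_pow, map_div₀, Complex.conj_ofReal,
    ← Complex.exp_conj, Complex.conj_conj, Complex.conj_I, map_ofNat, map_one, map_natCast]
  congr 4
  · ring
  · congr 1
    ring

lemma norm_err {ε M : ℝ} {x x' y y' : ℂ} (hx : ‖x - y‖ ≤ ε) (hx' : ‖x' - y'‖ ≤ ε)
    (hy : ‖y‖ ≤ M) (hy' : ‖y'‖ ≤ M) (hε : 0 ≤ ε) (hεM : ε ≤ M) :
    ‖x * conj x' - y * conj y'‖ ≤ 3 * ε * M := by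
  have e : x * conj x' - y * conj y' = (x - y) * conj x' + y * conj (x' - y') := by
    rw [map_sub]; ring
  have h1 : ‖x'‖ ≤ 2 * M := by
    calc ‖x'‖ = ‖(x' - y') + y'‖ := by rw [sub_add_cancel]
      _ ≤ ‖x' - y'‖ + ‖y'‖ := norm_add_le _ _
      _ ≤ 2 * M := by linarith
  have hM : 0 ≤ M := (norm_nonneg _).trans hy
  rw [e]
  refine (norm_add_le _ _).trans ?_
  rw [norm_mul, norm_mul, Complex.norm_conj, Complex.norm_conj]
  have a1 : ‖x - y‖ * ‖x'‖ ≤ ε * (2 * M) := mul_le_mul hx h1 (norm_nonneg _) hε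
  have a2 : ‖y‖ * ‖x' - y'‖ ≤ M * ε := mul_le_mul hy hx' (norm_nonneg _) hM
  linarith

lemma ps_bound {ψ : ℝ → ℝ} {C1 : ℝ} (hC1 : 0 < C1)
    (hdec : ∀ w : ℂ, |w.re| ≤ 1 → ‖Ps ψ w‖ ≤ C1 / (1 + ‖w‖) ^ 1) {T : ℝ} (hT : 1 ≤ T) {w : ℂ}
    (hw : |w.re| ≤ 1 / 2) :
    ‖Ps ψ (w / T) ^ 2‖ ≤ C1 ^ 2 * T ^ 2 * (1 / (1 + w.im ^ 2)) := by
  have hT0 : 0 < T := by linarith
  have hre : |(w / (T : ℂ)).re| ≤ 1 := by
    rw [Complex.div_ofReal_re, abs_div, abs_of_pos hT0, div_le_one hT0]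
    linarith
  have h1 := hdec _ hre
  rw [pow_one, norm_div, Complex.norm_real, Real.norm_eq_abs, abs_of_pos hT0] at h1
  rw [norm_pow]
  have h2 : ‖Ps ψ (w / T)‖ ^ 2 ≤ (C1 / (1 + ‖w‖ / T)) ^ 2 :=
    pow_le_pow_left₀ (norm_nonneg _) h1 2
  refine h2.trans ?_
  have hn := norm_nonneg w
  have him : |w.im| ≤ ‖w‖ := Complex.abs_im_le_norm w
  have h3 : 1 + w.im ^ 2 ≤ (T * (1 + ‖w‖ / T)) ^ 2 := by
    have e : T * (1 + ‖w‖ / T) = T + ‖w‖ := by field_simp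
    rw [e]
    have h4 : w.im ^ 2 ≤ ‖w‖ ^ 2 := by
      rw [← sq_abs w.im]
      exact pow_le_pow_left₀ (abs_nonneg _) him 2
    nlinarith
  rw [div_pow, ← div_eq_mul_one_div, div_le_div_iff₀ (by positivity) (by positivity)]
  rw [mul_pow] at h3
  have hC2 : 0 ≤ C1 ^ 2 := by positivity
  calc C1 ^ 2 * (1 + w.im ^ 2) ≤ C1 ^ 2 * (T ^ 2 * (1 + ‖w‖ / T) ^ 2) :=
        mul_le_mul_of_nonneg_left h3 hC2
    _ = C1 ^ 2 * T ^ 2 * (1 + ‖w‖ / T) ^ 2 := by ring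

theorem qp (h1 : S_Cv) (h2 : S_Psi) (h3 : S_SzB) : S_Qp := by
  intro ψ C hψ hC
  obtain ⟨-, -, -, p4, -⟩ := h2 ψ hψ
  obtain ⟨C1, hC1, hdec⟩ := p4 1
  obtain ⟨K3, hK3, hSz⟩ := h3
  obtain ⟨K, hK, hz⟩ := zsum_le
  have hz0 := hz 0
  simp only [sub_zero] at hz0
  have hzs := zsummable 0
  simp only [sub_zero] at hzs
  refine ⟨max 26 (max (C * Real.log 10) (3 * C1 ^ 2 * (K * Lg 0))), ?_⟩
  intro a s t b c g hA hs hsa hb hba hc hg happ
  have ha26 : 26 ≤ a := (le_max_left _ _).trans hA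
  have haC : C * Real.log 10 ≤ a := (le_max_left _ _).trans ((le_max_right _ _).trans hA)
  have haK : 3 * C1 ^ 2 * (K * Lg 0) ≤ a := (le_max_right _ _).trans ((le_max_right _ _).trans hA)
  have ha0 : 0 < a := by linarith
  have hC0 : 0 < C := by linarith
  set T := Ht C a with hTdef
  have hT10 : 10 ≤ T := by
    rw [hTdef, Ht, ← Real.exp_log (show (0 : ℝ) < 10 by norm_num)]
    apply Real.exp_le_exp.2
    rw [le_div_iff₀ hC0]
    nlinarith
  have hT1 : 1 ≤ T := by linarith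
  have hT0 : 0 < T := by linarith
  have hT2 : T ^ 2 ≤ Real.exp a := by
    rw [hTdef, Ht, ← Real.exp_nat_mul]
    apply Real.exp_le_exp.2
    rw [mul_div_assoc', div_le_iff₀ hC0]
    push_cast
    nlinarith
  obtain ⟨s0, -⟩ := hSz ψ T s t 0 hψ hT10 hs le_rfl
  obtain ⟨s1, -⟩ := hSz ψ T s t (2 * b) hψ hT10 hs (by positivity)
  -- the two sums
  have hsum : ∀ u : ℝ, (Summable fun ρ : Zt => (mu ρ : ℝ) * ‖Ps ψ (((ρ : ℂ) - 1 / 2) / T) ^ 2
      * Complex.exp (s * (((ρ : ℂ) - 1 / 2) - t * Complex.I) ^ 2 + u * ((ρ : ℂ) - 1 / 2))‖) →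
      HasSum (fun ρ : Zt => (mu ρ : ℂ) * (Ps ψ (((ρ : ℂ) - 1 / 2) / T) ^ 2
      * Complex.exp (s * (((ρ : ℂ) - 1 / 2) - t * Complex.I) ^ 2 + u * ((ρ : ℂ) - 1 / 2))))
      (Sz ψ T s t u) := by
    intro u hu
    refine Summable.hasSum ?_
    refine Summable.of_norm (hu.congr fun ρ => ?_)
    simp only [norm_mul, Complex.norm_natCast]
  have hA0 := Complex.reCLM.hasSum (hsum 0 s0)
  set κ : ℂ := conj c * Complex.exp (-(2 * b * t * Complex.I)) with hκ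
  have hB0 := Complex.reCLM.hasSum ((hsum (2 * b) s1).mul_left κ)
  have hG0 := (rfZ.hasSum_iff).2 hB0
  have hfun : ∀ ρ : Zt, κ * ((mu ρ : ℂ) * (Ps ψ (((ρ : ℂ) - 1 / 2) / T) ^ 2
      * Complex.exp (s * (((ρ : ℂ) - 1 / 2) - t * Complex.I) ^ 2 + (2 * b : ℝ) * ((ρ : ℂ) - 1 / 2))))
      = (mu ρ : ℂ) * (Ps ψ (((ρ : ℂ) - 1 / 2) / T) ^ 2
      * (Complex.exp (s * (((ρ : ℂ) - 1 / 2) - t * Complex.I) ^ 2)
        * (conj c * Complex.exp (2 * b * (((ρ : ℂ) - 1 / 2) - t * Complex.I))))) := by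
    intro ρ
    have e : Complex.exp (-(2 * b * t * Complex.I))
        * Complex.exp (s * (((ρ : ℂ) - 1 / 2) - t * Complex.I) ^ 2
          + (2 * b : ℝ) * ((ρ : ℂ) - 1 / 2))
        = Complex.exp (s * (((ρ : ℂ) - 1 / 2) - t * Complex.I) ^ 2)
          * Complex.exp (2 * b * (((ρ : ℂ) - 1 / 2) - t * Complex.I)) := by
      rw [← Complex.exp_add, ← Complex.exp_add]
      congr 1
      push_cast
      ring
    rw [hκ]
    linear_combination (conj c * (mu ρ : ℂ) * Ps ψ (((ρ : ℂ) - 1 / 2) / T) ^ 2) * e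
  -- the main terms
  have hmain : HasSum (fun ρ : Zt => (mu ρ : ℝ) * (Ps ψ (((ρ : ℂ) - 1 / 2) / T) ^ 2
      * (Mn s t b c ((ρ : ℂ) - 1 / 2) * conj (Mn s t b c (-conj ((ρ : ℂ) - 1 / 2))))).re)
      (4 * Real.pi * s * ((Sz ψ T s t 0).re + (κ * Sz ψ T s t (2 * b)).re)) := by
    have key : ∀ ρ : Zt, (mu ρ : ℝ) * (Ps ψ (((ρ : ℂ) - 1 / 2) / T) ^ 2
        * (Mn s t b c ((ρ : ℂ) - 1 / 2) * conj (Mn s t b c (-conj ((ρ : ℂ) - 1 / 2))))).re
        = 2 * Real.pi * s * (2 * ((mu ρ : ℂ) * (Ps ψ (((ρ : ℂ) - 1 / 2) / T) ^ 2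
          * Complex.exp (s * (((ρ : ℂ) - 1 / 2) - t * Complex.I) ^ 2
            + (0 : ℝ) * ((ρ : ℂ) - 1 / 2)))).re
          + ((κ * ((mu ρ : ℂ) * (Ps ψ (((ρ : ℂ) - 1 / 2) / T) ^ 2
            * Complex.exp (s * (((ρ : ℂ) - 1 / 2) - t * Complex.I) ^ 2
              + (2 * b : ℝ) * ((ρ : ℂ) - 1 / 2))))).re
          + (κ * ((mu (rfZ ρ : Zt) : ℂ) * (Ps ψ ((((rfZ ρ : Zt) : ℂ) - 1 / 2) / T) ^ 2
            * Complex.exp (s * ((((rfZ ρ : Zt) : ℂ) - 1 / 2) - t * Complex.I) ^ 2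
              + (2 * b : ℝ) * (((rfZ ρ : Zt) : ℂ) - 1 / 2))))).re)) := by
      intro ρ
      rw [hfun ρ, hfun (rfZ ρ), term_refl h2 hψ T s t b c ρ, Complex.conj_re,
        mn_mul (by linarith) hc, Complex.ofReal_zero, zero_mul, add_zero]
      generalize Ps ψ (((ρ : ℂ) - 1 / 2) / T) ^ 2 = P
      generalize Complex.exp (s * (((ρ : ℂ) - 1 / 2) - t * Complex.I) ^ 2) = E
      generalize conj c * Complex.exp (2 * b * (((ρ : ℂ) - 1 / 2) - t * Complex.I)) = X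
      generalize c * Complex.exp (-(2 * b * (((ρ : ℂ) - 1 / 2) - t * Complex.I))) = Y
      have e1 : P * (((2 * Real.pi * s : ℝ) : ℂ) * (E * (2 + X + Y)))
          = ((2 * Real.pi * s : ℝ) : ℂ) * (P * (E * (2 + X + Y))) := by ring
      have e2 : ((mu ρ : ℕ) : ℂ) = (((mu ρ : ℕ) : ℝ) : ℂ) := by push_cast; rfl
      have e3 : P * (E * (2 + X + Y)) = (P * E + P * E) + (P * (E * X) + P * (E * Y)) := by ring
      rw [e1, Complex.re_ofReal_mul, e2, Complex.re_ofReal_mul, Complex.re_ofReal_mul,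
        Complex.re_ofReal_mul, e3, Complex.add_re, Complex.add_re, Complex.add_re]
      ring
    rw [funext key, show 4 * Real.pi * s * ((Sz ψ T s t 0).re + (κ * Sz ψ T s t (2 * b)).re)
      = 2 * Real.pi * s * (2 * (Sz ψ T s t 0).re + ((κ * Sz ψ T s t (2 * b)).re
        + (κ * Sz ψ T s t (2 * b)).re)) by ring]
    exact ((hA0.mul_left 2).add (hB0.add hG0)).mul_left _
  -- the errors
  set er : Zt → ℝ := fun ρ => (mu ρ : ℝ) * (Ps ψ (((ρ : ℂ) - 1 / 2) / T) ^ 2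
      * (TT g ((ρ : ℂ) - 1 / 2) * conj (TT g (-conj ((ρ : ℂ) - 1 / 2)))
        - Mn s t b c ((ρ : ℂ) - 1 / 2) * conj (Mn s t b c (-conj ((ρ : ℂ) - 1 / 2))))).re with her
  have hbd : ∀ ρ : Zt, ‖er ρ‖ ≤ (mu ρ : ℝ) * (1 / (1 + (ρ : ℂ).im ^ 2))
      * (C1 ^ 2 * T ^ 2 * (3 * Real.exp (-(15 * a)) * Real.exp (2 * a))) := by
    intro ρ
    have hw := half_re ρ
    have hw' : |(-conj ((ρ : ℂ) - 1 / 2)).re| ≤ 1 / 2 := by
      rw [Complex.neg_re, Complex.conj_re, abs_neg]; exact hw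
    have b1 := ps_bound hC1 hdec hT1 hw
    have him : ((ρ : ℂ) - 1 / 2).im = (ρ : ℂ).im := by simp
    rw [him] at b1
    have b2 := norm_err (happ ((ρ : ℂ) - 1 / 2) (by linarith))
      (happ (-conj ((ρ : ℂ) - 1 / 2)) (by linarith))
      (mn_norm ha26 hs hsa hb hba hc hw) (mn_norm ha26 hs hsa hb hba hc hw')
      (Real.exp_pos _).le (by apply Real.exp_le_exp.2; linarith)
    have b3 : ‖er ρ‖ ≤ (mu ρ : ℝ) * (‖Ps ψ (((ρ : ℂ) - 1 / 2) / T) ^ 2‖
        * ‖TT g ((ρ : ℂ) - 1 / 2) * conj (TT g (-conj ((ρ : ℂ) - 1 / 2)))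
        - Mn s t b c ((ρ : ℂ) - 1 / 2) * conj (Mn s t b c (-conj ((ρ : ℂ) - 1 / 2)))‖) := by
      rw [her]
      simp only
      rw [Real.norm_eq_abs, abs_mul, abs_of_nonneg (Nat.cast_nonneg _), ← norm_mul]
      exact mul_le_mul_of_nonneg_left (Complex.abs_re_le_norm _) (Nat.cast_nonneg _)
    refine b3.trans ?_
    calc (mu ρ : ℝ) * (‖Ps ψ (((ρ : ℂ) - 1 / 2) / T) ^ 2‖
        * ‖TT g ((ρ : ℂ) - 1 / 2) * conj (TT g (-conj ((ρ : ℂ) - 1 / 2)))
        - Mn s t b c ((ρ : ℂ) - 1 / 2) * conj (Mn s t b c (-conj ((ρ : ℂ) - 1 / 2)))‖)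
        ≤ (mu ρ : ℝ) * ((C1 ^ 2 * T ^ 2 * (1 / (1 + (ρ : ℂ).im ^ 2)))
          * (3 * Real.exp (-(15 * a)) * Real.exp (2 * a))) := by gcongr
      _ = _ := by ring
  have hbs := hzs.mul_right (C1 ^ 2 * T ^ 2 * (3 * Real.exp (-(15 * a)) * Real.exp (2 * a)))
  have hes : Summable er := Summable.of_norm_bounded hbs hbd
  have hle : ∑' ρ, er ρ ≤ Real.exp (-(10 * a)) := by
    calc ∑' ρ, er ρ ≤ ∑' ρ : Zt, (mu ρ : ℝ) * (1 / (1 + (ρ : ℂ).im ^ 2))
          * (C1 ^ 2 * T ^ 2 * (3 * Real.exp (-(15 * a)) * Real.exp (2 * a))) :=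
          hes.tsum_le_tsum (fun ρ => (le_abs_self _).trans (hbd ρ)) hbs
      _ = (∑' ρ : Zt, (mu ρ : ℝ) * (1 / (1 + (ρ : ℂ).im ^ 2)))
          * (C1 ^ 2 * T ^ 2 * (3 * Real.exp (-(15 * a)) * Real.exp (2 * a))) := tsum_mul_right
      _ ≤ (K * Lg 0) * (C1 ^ 2 * Real.exp a * (3 * Real.exp (-(15 * a)) * Real.exp (2 * a))) := by
          have hL : 0 ≤ K * Lg 0 := by
            refine le_trans (tsum_nonneg fun ρ => ?_) hz0
            positivity
          gcongr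
      _ = (3 * C1 ^ 2 * (K * Lg 0)) * (Real.exp a * Real.exp (-(15 * a)) * Real.exp (2 * a)) := by
          ring
      _ ≤ Real.exp (2 * a) * (Real.exp a * Real.exp (-(15 * a)) * Real.exp (2 * a)) := by
          have := Real.add_one_le_exp (2 * a)
          gcongr
          linarith
      _ = Real.exp (-(10 * a)) := by
          rw [← Real.exp_add, ← Real.exp_add, ← Real.exp_add]
          congr 1
          ring
  -- the form
  have hQ : HasSum (fun ρ : Zt => (mu ρ : ℝ)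
      * (GG (Sg ψ T g) (Sg ψ T g) ((ρ : ℂ) - 1 / 2)).re)
      (4 * Real.pi * s * ((Sz ψ T s t 0).re + (κ * Sz ψ T s t (2 * b)).re) + ∑' ρ, er ρ) := by
    have hadd := hmain.add hes.hasSum
    have hfe : (fun ρ : Zt => (mu ρ : ℝ) * (GG (Sg ψ T g) (Sg ψ T g) ((ρ : ℂ) - 1 / 2)).re)
        = fun ρ : Zt => (mu ρ : ℝ) * (Ps ψ (((ρ : ℂ) - 1 / 2) / T) ^ 2
          * (Mn s t b c ((ρ : ℂ) - 1 / 2) * conj (Mn s t b c (-conj ((ρ : ℂ) - 1 / 2))))).re
          + er ρ := by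
      funext ρ
      rw [gg_eq h1 h2 hψ hT0 ha0 hg, her]
      simp only
      rw [← mul_add, ← Complex.add_re, ← mul_add, add_sub_cancel]
    rw [hfe]
    exact hadd
  have hQQ : QQ (Sg ψ T g) = 4 * Real.pi * s * ((Sz ψ T s t 0).re
      + (κ * Sz ψ T s t (2 * b)).re) + ∑' ρ, er ρ := hQ.tsum_eq
  rw [hQQ]
  have hre : (Sz ψ T s t 0).re ≤ ‖Sz ψ T s t 0‖ := Complex.re_le_norm _
  have hκ' : κ * Sz ψ T s t (2 * b)
      = conj c * (Complex.exp (-(2 * b * t * Complex.I)) * Sz ψ T s t (2 * b)) := by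
    rw [hκ, mul_assoc]
  rw [hκ']
  have hs0 : 0 ≤ 4 * Real.pi * s := by positivity
  have := mul_le_mul_of_nonneg_left (add_le_add_left hre
    (conj c * (Complex.exp (-(2 * b * t * Complex.I)) * Sz ψ T s t (2 * b))).re) hs0
  linarith

end Q214.SD
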